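import Mathlib
import Pool.Agent.H78.Dom.Raw

/-!
# The generic structure of the class `K` (module B of MP_02e24e_lc)
-/

set_option autoImplicit false
set_option linter.unusedVariables false

namespace Pool.Agent.H78.Dom

universe u v w

/-- the class is closed under pulling back along injective maps -/
theorem IsK.comap {V : Type u} {W : Type v} {g : V → W} (hg : Function.Injective g) {ρ : Raw W}
    (h : IsK ρ) : IsK (ρ.comap g) where
  y_diag a b c k := ⟨hg (h.y_diag _ _ _ k).1, hg (h.y_diag _ _ _ k).2⟩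
  z_diag a b c k := ⟨hg (h.z_diag _ _ _ k).1, hg (h.z_diag _ _ _ k).2⟩
  p_diag m a b c k := ⟨hg (h.p_diag _ _ _ _ k).1, hg (h.p_diag _ _ _ _ k).2⟩
  yz a k := h.yz _ k
  py m a k := h.py m _ k
  pz m a k := h.pz m _ k
  pp m n a k k' := h.pp m n _ k k'
  d_diag a b c k := hg (h.d_diag _ _ _ k)
  d_ne a b c k e := h.d_ne _ _ _ k (congrArg g e)
  d_symm a b k := h.d_symm _ _ k
  d_y a b c k := h.d_y _ _ _ k
  d_z a b c k := h.d_z _ _ _ k
  l_diag a b c k := hg (h.l_diag _ _ _ k)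
  l_y a b c k := h.l_y _ _ _ k
  l_y2 a b c k := h.l_y2 _ _ _ k
  l_z2 a b c k := h.l_z2 _ _ _ k
  t_y a b c k := h.t_y _ _ _ k
  t_z a b c k := h.t_z _ _ _ k
  t_z2 a b c k := h.t_z2 _ _ _ k
  t_z3 a b c k := h.t_z3 _ _ _ k
  r_y m a b c k := h.r_y m _ _ _ k
  r_z2 m a b c k := h.r_z2 m _ _ _ k
  r_z3 m a b c k := h.r_z3 m _ _ _ k
  c1 a b c k k' := h.c1 _ _ _ k k'
  c2 m a b c e k k' k'' := h.c2 m _ _ _ _ k k' k''

/-- a chart: a subset on which the induced structure is in the class -/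
def Chart {U : Type u} (ρ : Raw U) (S : Set U) : Prop :=
  IsK (ρ.comap (Subtype.val : S → U))

theorem chart_range {U : Type u} {W : Type v} {ρ : Raw U} {e : W → U} (he : Function.Injective e)
    (h : IsK (ρ.comap e)) : Chart ρ (Set.range e) := by
  have h1 : ∀ x : Set.range e, ∃ w, e w = x.1 := fun x => x.2
  choose s hs using h1
  have hsi : Function.Injective s := by
    intro x y hxy
    apply Subtype.ext
    rw [← hs x, ← hs y, hxy]
  have := h.comap hsi
  have e1 : (ρ.comap e).comap s = ρ.comap (Subtype.val : Set.range e → U) := by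
    funext σ a b c
    simp only [Raw.comap, hs]
  rw [e1] at this
  exact this

/-- a structure covered by charts is in the class -/
theorem isK_of_charts {U : Type u} {ρ : Raw U}
    (H1 : ∀ σ a b c, ρ σ a b c → ∃ S, Chart ρ S ∧ a ∈ S ∧ b ∈ S ∧ c ∈ S)
    (H2 : ∀ a b c, ρ .l a b b → ρ .l a c c → ρ .d b c c → ∃ S, Chart ρ S ∧ a ∈ S ∧ b ∈ S ∧ c ∈ S)
    (H3 : ∀ m a b c e, ρ .l a b b → ρ (.p m) b b b → ρ (.r m) a c e → ρ .t b c e →
      ∃ S, Chart ρ S ∧ a ∈ S ∧ b ∈ S ∧ c ∈ S ∧ e ∈ S) : IsK ρ where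
  y_diag a b c k := by
    obtain ⟨S, hS, ha, hb, hc⟩ := H1 _ _ _ _ k
    have := hS.y_diag ⟨a, ha⟩ ⟨b, hb⟩ ⟨c, hc⟩ k
    exact ⟨congrArg Subtype.val this.1, congrArg Subtype.val this.2⟩
  z_diag a b c k := by
    obtain ⟨S, hS, ha, hb, hc⟩ := H1 _ _ _ _ k
    have := hS.z_diag ⟨a, ha⟩ ⟨b, hb⟩ ⟨c, hc⟩ k
    exact ⟨congrArg Subtype.val this.1, congrArg Subtype.val this.2⟩
  p_diag m a b c k := by
    obtain ⟨S, hS, ha, hb, hc⟩ := H1 _ _ _ _ k
    have := hS.p_diag m ⟨a, ha⟩ ⟨b, hb⟩ ⟨c, hc⟩ k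
    exact ⟨congrArg Subtype.val this.1, congrArg Subtype.val this.2⟩
  yz a k := by
    obtain ⟨S, hS, ha, _, _⟩ := H1 _ _ _ _ k
    exact hS.yz ⟨a, ha⟩ k
  py m a k := by
    obtain ⟨S, hS, ha, _, _⟩ := H1 _ _ _ _ k
    exact hS.py m ⟨a, ha⟩ k
  pz m a k := by
    obtain ⟨S, hS, ha, _, _⟩ := H1 _ _ _ _ k
    exact hS.pz m ⟨a, ha⟩ k
  pp m n a k k' := by
    obtain ⟨S, hS, ha, _, _⟩ := H1 _ _ _ _ k
    exact hS.pp m n ⟨a, ha⟩ k k'
  d_diag a b c k := by
    obtain ⟨S, hS, ha, hb, hc⟩ := H1 _ _ _ _ k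
    exact congrArg Subtype.val (hS.d_diag ⟨a, ha⟩ ⟨b, hb⟩ ⟨c, hc⟩ k)
  d_ne a b c k e := by
    obtain ⟨S, hS, ha, hb, hc⟩ := H1 _ _ _ _ k
    exact hS.d_ne ⟨a, ha⟩ ⟨b, hb⟩ ⟨c, hc⟩ k (Subtype.ext e)
  d_symm a b k := by
    obtain ⟨S, hS, ha, hb, hc⟩ := H1 _ _ _ _ k
    exact hS.d_symm ⟨a, ha⟩ ⟨b, hb⟩ k
  d_y a b c k := by
    obtain ⟨S, hS, ha, hb, hc⟩ := H1 _ _ _ _ k
    exact hS.d_y ⟨a, ha⟩ ⟨b, hb⟩ ⟨c, hc⟩ k
  d_z a b c k := by
    obtain ⟨S, hS, ha, hb, hc⟩ := H1 _ _ _ _ k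
    exact hS.d_z ⟨a, ha⟩ ⟨b, hb⟩ ⟨c, hc⟩ k
  l_diag a b c k := by
    obtain ⟨S, hS, ha, hb, hc⟩ := H1 _ _ _ _ k
    exact congrArg Subtype.val (hS.l_diag ⟨a, ha⟩ ⟨b, hb⟩ ⟨c, hc⟩ k)
  l_y a b c k := by
    obtain ⟨S, hS, ha, hb, hc⟩ := H1 _ _ _ _ k
    exact hS.l_y ⟨a, ha⟩ ⟨b, hb⟩ ⟨c, hc⟩ k
  l_y2 a b c k := by
    obtain ⟨S, hS, ha, hb, hc⟩ := H1 _ _ _ _ k
    exact hS.l_y2 ⟨a, ha⟩ ⟨b, hb⟩ ⟨c, hc⟩ k
  l_z2 a b c k := by
    obtain ⟨S, hS, ha, hb, hc⟩ := H1 _ _ _ _ k
    exact hS.l_z2 ⟨a, ha⟩ ⟨b, hb⟩ ⟨c, hc⟩ k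
  t_y a b c k := by
    obtain ⟨S, hS, ha, hb, hc⟩ := H1 _ _ _ _ k
    exact hS.t_y ⟨a, ha⟩ ⟨b, hb⟩ ⟨c, hc⟩ k
  t_z a b c k := by
    obtain ⟨S, hS, ha, hb, hc⟩ := H1 _ _ _ _ k
    exact hS.t_z ⟨a, ha⟩ ⟨b, hb⟩ ⟨c, hc⟩ k
  t_z2 a b c k := by
    obtain ⟨S, hS, ha, hb, hc⟩ := H1 _ _ _ _ k
    exact hS.t_z2 ⟨a, ha⟩ ⟨b, hb⟩ ⟨c, hc⟩ k
  t_z3 a b c k := by
    obtain ⟨S, hS, ha, hb, hc⟩ := H1 _ _ _ _ k
    exact hS.t_z3 ⟨a, ha⟩ ⟨b, hb⟩ ⟨c, hc⟩ k
  r_y m a b c k := by
    obtain ⟨S, hS, ha, hb, hc⟩ := H1 _ _ _ _ k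
    exact hS.r_y m ⟨a, ha⟩ ⟨b, hb⟩ ⟨c, hc⟩ k
  r_z2 m a b c k := by
    obtain ⟨S, hS, ha, hb, hc⟩ := H1 _ _ _ _ k
    exact hS.r_z2 m ⟨a, ha⟩ ⟨b, hb⟩ ⟨c, hc⟩ k
  r_z3 m a b c k := by
    obtain ⟨S, hS, ha, hb, hc⟩ := H1 _ _ _ _ k
    exact hS.r_z3 m ⟨a, ha⟩ ⟨b, hb⟩ ⟨c, hc⟩ k
  c1 a b c k k' k'' := by
    obtain ⟨S, hS, ha, hb, hc⟩ := H2 _ _ _ k k' k''
    exact hS.c1 ⟨a, ha⟩ ⟨b, hb⟩ ⟨c, hc⟩ k k' k''
  c2 m a b c e k k' k'' k''' := by
    obtain ⟨S, hS, ha, hb, hc, he⟩ := H3 _ _ _ _ _ k k' k'' k'''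
    exact hS.c2 m ⟨a, ha⟩ ⟨b, hb⟩ ⟨c, hc⟩ ⟨e, he⟩ k k' k'' k'''

/-! ### Free one-point amalgams -/

section amal

variable {W : Type u} {I : Type v}

/-- free amalgam of `ρ` with a one-point extension of its part indexed by `f` -/
def amal (ρ : Raw W) (f : I → W) (τ : Raw (Option I)) : Raw (Option W) := fun σ a b c =>
  (∃ a' b' c', a = some a' ∧ b = some b' ∧ c = some c' ∧ ρ σ a' b' c') ∨
    ∃ x y z : Option I, a = x.map f ∧ b = y.map f ∧ c = z.map f ∧ τ σ x y z

variable {ρ : Raw W} {f : I → W} {τ : Raw (Option I)}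

theorem amal_some (hag : τ.comap some = ρ.comap f) : (amal ρ f τ).comap some = ρ := by
  funext σ a b c
  apply propext
  constructor
  · rintro (⟨a', b', c', ha, hb, hc, h⟩ | ⟨x, y, z, ha, hb, hc, h⟩)
    · simp only [Option.some.injEq] at ha hb hc
      subst ha; subst hb; subst hc
      exact h
    · match x, y, z, ha, hb, hc, h with
      | some x, some y, some z, ha, hb, hc, h =>
        simp only [Option.map_some, Option.some.injEq] at ha hb hc
        subst ha; subst hb; subst hc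
        have := congrFun (congrFun (congrFun (congrFun hag σ) x) y) z
        simp only [Raw.comap] at this
        rw [← this]; exact h
  · intro h
    exact Or.inl ⟨a, b, c, rfl, rfl, rfl, h⟩

theorem amal_map (hf : Function.Injective f) (hag : τ.comap some = ρ.comap f) :
    (amal ρ f τ).comap (Option.map f) = τ := by
  funext σ a b c
  apply propext
  constructor
  · rintro (⟨a', b', c', ha, hb, hc, h⟩ | ⟨x, y, z, ha, hb, hc, h⟩)
    · match a, b, c, ha, hb, hc with
      | some a, some b, some c, ha, hb, hc =>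
        simp only [Option.map_some, Option.some.injEq] at ha hb hc
        subst ha; subst hb; subst hc
        have := congrFun (congrFun (congrFun (congrFun hag σ) a) b) c
        simp only [Raw.comap] at this
        rw [this]; exact h
    · have hi := Option.map_injective hf
      rw [hi ha, hi hb, hi hc]; exact h
  · intro h
    exact Or.inr ⟨a, b, c, rfl, rfl, rfl, h⟩

theorem amal_none {σ : Sym} {a b c : Option W} (h : amal ρ f τ σ a b c)
    (hn : a = none ∨ b = none ∨ c = none) :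
    a ∈ Set.range (Option.map f) ∧ b ∈ Set.range (Option.map f) ∧ c ∈ Set.range (Option.map f) := by
  rcases h with ⟨a', b', c', rfl, rfl, rfl, _⟩ | ⟨x, y, z, rfl, rfl, rfl, _⟩
  · simp at hn
  · exact ⟨⟨_, rfl⟩, ⟨_, rfl⟩, ⟨_, rfl⟩⟩

theorem isK_amal (hf : Function.Injective f) (hρ : IsK ρ) (hτ : IsK τ)
    (hag : τ.comap some = ρ.comap f) : IsK (amal ρ f τ) := by
  have C1 : Chart (amal ρ f τ) (Set.range some) :=
    chart_range (Option.some_injective W) (by rw [amal_some hag]; exact hρ)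
  have C2 : Chart (amal ρ f τ) (Set.range (Option.map f)) :=
    chart_range (Option.map_injective hf) (by rw [amal_map hf hag]; exact hτ)
  have hsome : ∀ a : Option W, a ≠ none → a ∈ Set.range (some : W → Option W) := by
    intro a ha
    match a, ha with
    | some a, _ => exact ⟨a, rfl⟩
  refine isK_of_charts ?_ ?_ ?_
  · intro σ a b c h
    by_cases hn : a = none ∨ b = none ∨ c = none
    · exact ⟨_, C2, amal_none h hn⟩
    · push Not at hn
      exact ⟨_, C1, hsome _ hn.1, hsome _ hn.2.1, hsome _ hn.2.2⟩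
  · intro a b c h1 h2 h3
    by_cases hn : a = none ∨ b = none ∨ c = none
    · refine ⟨_, C2, ?_⟩
      rcases hn with h | h | h
      · have k1 := amal_none h1 (Or.inl h)
        have k2 := amal_none h2 (Or.inl h)
        exact ⟨k1.1, k1.2.1, k2.2.1⟩
      · have k1 := amal_none h1 (Or.inr (Or.inl h))
        have k2 := amal_none h3 (Or.inl h)
        exact ⟨k1.1, k1.2.1, k2.2.1⟩
      · have k1 := amal_none h2 (Or.inr (Or.inl h))
        have k2 := amal_none h3 (Or.inr (Or.inl h))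
        exact ⟨k1.1, k2.1, k1.2.1⟩
    · push Not at hn
      exact ⟨_, C1, hsome _ hn.1, hsome _ hn.2.1, hsome _ hn.2.2⟩
  · intro m a b c e h1 h2 h3 h4
    by_cases hn : a = none ∨ b = none ∨ c = none ∨ e = none
    · refine ⟨_, C2, ?_⟩
      rcases hn with h | h | h | h
      · have k1 := amal_none h1 (Or.inl h)
        have k2 := amal_none h3 (Or.inl h)
        exact ⟨k1.1, k1.2.1, k2.2.1, k2.2.2⟩
      · have k1 := amal_none h1 (Or.inr (Or.inl h))
        have k2 := amal_none h4 (Or.inl h)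
        exact ⟨k1.1, k1.2.1, k2.2.1, k2.2.2⟩
      · have k1 := amal_none h3 (Or.inr (Or.inl h))
        have k2 := amal_none h4 (Or.inr (Or.inl h))
        exact ⟨k1.1, k2.1, k1.2.1, k1.2.2⟩
      · have k1 := amal_none h3 (Or.inr (Or.inr h))
        have k2 := amal_none h4 (Or.inr (Or.inr h))
        exact ⟨k1.1, k2.1, k1.2.1, k1.2.2⟩
    · push Not at hn
      exact ⟨_, C1, hsome _ hn.1, hsome _ hn.2.1, hsome _ hn.2.2.1, hsome _ hn.2.2.2⟩

end amal

/-! ### The construction along the ordinals -/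

section gen

/-- one-point problems -/
abbrev Prob : Type 1 := Σ δ : Ordinal.{0}, Raw (Option (Set.Iio δ))

/-- an enumeration of the problems which hits each of them unboundedly -/
theorem exists_req : ∃ req : Ordinal.{0} → Prob, ∀ (x : Prob) (δ : Ordinal.{0}),
    ∃ α, δ ≤ α ∧ req α = x := by
  have hc : Cardinal.mk (Prob × Ordinal.{0}) ≤ Cardinal.mk Ordinal.{0} := by
    have h1 : Cardinal.mk Prob ≤ Cardinal.univ.{0, 1} := by
      rw [Cardinal.mk_sigma]
      refine (Cardinal.sum_le_mk_mul_iSup _).trans ?_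
      rw [Cardinal.mk_ordinal]
      have h2 : (⨆ δ : Ordinal.{0}, Cardinal.mk (Raw (Option (Set.Iio δ)))) ≤
          Cardinal.univ.{0, 1} := by
        refine ciSup_le' fun δ => ?_
        have hso : Small.{0} (Option (Set.Iio δ)) :=
          small_map (Equiv.optionEquivSumPUnit.{0} (Set.Iio δ))
        have hs : Small.{0} (Raw (Option (Set.Iio δ))) := by
          unfold Raw
          infer_instance
        have : Cardinal.mk (Raw (Option (Set.Iio δ))) =
            Cardinal.lift.{1, 0} (Cardinal.mk (Shrink.{0} (Raw (Option (Set.Iio δ))))) := by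
          rw [← Cardinal.lift_id'.{0, 1} (Cardinal.mk (Raw (Option (Set.Iio δ))))]
          exact (Cardinal.lift_mk_eq'.2 ⟨equivShrink _⟩)
        rw [this]
        exact (Cardinal.lift_lt_univ _).le
      calc Cardinal.univ.{0, 1} * _ ≤ Cardinal.univ.{0, 1} * Cardinal.univ.{0, 1} :=
            mul_le_mul' le_rfl h2
        _ = Cardinal.univ.{0, 1} := Cardinal.mul_eq_self (Cardinal.aleph0_lt_univ.le)
    rw [Cardinal.mk_prod, Cardinal.lift_id, Cardinal.lift_id, Cardinal.mk_ordinal]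
    calc Cardinal.mk Prob * Cardinal.univ.{0, 1} ≤ Cardinal.univ.{0, 1} * Cardinal.univ.{0, 1} :=
          mul_le_mul' h1 le_rfl
      _ = Cardinal.univ.{0, 1} := Cardinal.mul_eq_self (Cardinal.aleph0_lt_univ.le)
  obtain ⟨g⟩ := Cardinal.le_def _ _ |>.1 hc
  have hne : Nonempty (Prob × Ordinal.{0}) := ⟨(⟨0, fun _ _ _ _ => False⟩, 0)⟩
  let s : Ordinal.{0} → Prob × Ordinal.{0} := Function.invFun g
  have hs : Function.Surjective s := Function.invFun_surjective g.injective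
  refine ⟨fun α => (s α).1, fun x δ => ?_⟩
  by_contra hcon
  push Not at hcon
  -- then the ordinals embed in a small set
  have hsm : Small.{0} (Ordinal.{0}) := by
    have hsub : ∀ β : Ordinal.{0}, ∃ α, s α = (x, β) := fun β => hs _
    choose t ht using hsub
    have hlt : ∀ β, t β < δ := by
      intro β
      by_contra h
      exact hcon (t β) (not_lt.1 h) (by rw [ht])
    have hinj : Function.Injective (fun β => (⟨t β, hlt β⟩ : Set.Iio δ)) := by
      intro β γ h
      have : t β = t γ := congrArg Subtype.val h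
      have h2 := ht β
      rw [this, ht γ] at h2
      exact (Prod.mk.inj h2).2.symm
    exact small_of_injective hinj
  exact not_small_ordinal hsm

/-- the enumeration of problems -/
noncomputable def req : Ordinal.{0} → Prob := exists_req.choose

theorem req_spec (x : Prob) (δ : Ordinal.{0}) : ∃ α, δ ≤ α ∧ req α = x :=
  exists_req.choose_spec x δ

/-- the chart of a stage -/
def ch (α : Ordinal.{0}) (x : Prob) : Option (Set.Iio x.1) → Ordinal.{0} :=
  fun o => o.elim α (fun i => i.1)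

/-- validity of a problem at a stage, given the structure built so far -/
def Valid (α : Ordinal.{0}) (x : Prob) (R : Sym → Ordinal.{0} → Ordinal.{0} → Ordinal.{0} → Prop) :
    Prop :=
  x.1 ≤ α ∧ IsK x.2 ∧ ∀ σ (a b c : Set.Iio x.1), x.2 σ (some a) (some b) (some c) ↔ R σ a b c

/-- the relations with largest element `α` -/
noncomputable def stage (α : Ordinal.{0}) : Raw Ordinal.{0} :=
  fun σ a b c => Valid α (req α) (fun σ a b c =>
    if h : max a (max b c) < α then stage (max a (max b c)) σ a b c else False) ∧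
    max a (max b c) = α ∧ ∃ p q r : Option (Set.Iio (req α).1),
      a = ch α (req α) p ∧ b = ch α (req α) q ∧ c = ch α (req α) r ∧ (req α).2 σ p q r
termination_by α
decreasing_by exact h

/-- the generic structure -/
noncomputable def gen : Raw Ordinal.{0} := fun σ a b c => stage (max a (max b c)) σ a b c

theorem gen_iff (σ : Sym) (a b c : Ordinal.{0}) : gen σ a b c ↔
    Valid (max a (max b c)) (req (max a (max b c))) gen ∧
      ∃ p q r : Option (Set.Iio (req (max a (max b c))).1),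
      a = ch (max a (max b c)) (req (max a (max b c))) p ∧
      b = ch (max a (max b c)) (req (max a (max b c))) q ∧
      c = ch (max a (max b c)) (req (max a (max b c))) r ∧
      (req (max a (max b c))).2 σ p q r := by
  have hval : ∀ α, Valid α (req α) (fun σ a b c =>
      if h : max a (max b c) < α then stage (max a (max b c)) σ a b c else False) ↔
      Valid α (req α) gen := by
    intro α
    unfold Valid
    refine and_congr_right fun h1 => and_congr_right fun _ => ?_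
    refine forall_congr' fun σ => forall_congr' fun a => forall_congr' fun b =>
      forall_congr' fun c => ?_
    have hlt : max a.1 (max b.1 c.1) < α :=
      lt_of_lt_of_le (max_lt a.2 (max_lt b.2 c.2)) h1
    beta_reduce
    rw [dif_pos hlt]
    rfl
  have hst : gen σ a b c ↔ stage (max a (max b c)) σ a b c := Iff.rfl
  rw [hst, stage, hval]
  constructor
  · rintro ⟨h1, _, h2⟩; exact ⟨h1, h2⟩
  · rintro ⟨h1, h2⟩; exact ⟨h1, rfl, h2⟩

/-- `α` is a valid stage -/
def VS (α : Ordinal.{0}) : Prop := Valid α (req α) gen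

theorem ch_injective {α : Ordinal.{0}} (h : VS α) : Function.Injective (ch α (req α)) := by
  intro p q hpq
  match p, q, hpq with
  | none, none, _ => rfl
  | none, some q, hpq =>
    exfalso
    simp only [ch, Option.elim] at hpq
    exact (lt_of_lt_of_le q.2 h.1).ne' hpq
  | some p, none, hpq =>
    exfalso
    simp only [ch, Option.elim] at hpq
    exact (lt_of_lt_of_le p.2 h.1).ne hpq
  | some p, some q, hpq =>
    simp only [ch, Option.elim] at hpq
    rw [Subtype.ext hpq]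

theorem ch_le {α : Ordinal.{0}} (h : VS α) (p : Option (Set.Iio (req α).1)) :
    ch α (req α) p ≤ α := by
  match p with
  | none => exact le_refl _
  | some p => exact (lt_of_lt_of_le p.2 h.1).le

theorem comap_ch {α : Ordinal.{0}} (h : VS α) : gen.comap (ch α (req α)) = (req α).2 := by
  funext σ p q r
  apply propext
  simp only [Raw.comap]
  by_cases hn : p = none ∨ q = none ∨ r = none
  · have hmax : max (ch α (req α) p) (max (ch α (req α) q) (ch α (req α) r)) = α := by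
      apply le_antisymm
      · exact max_le (ch_le h p) (max_le (ch_le h q) (ch_le h r))
      · rcases hn with rfl | rfl | rfl
        · exact le_max_left _ _
        · exact (le_max_left _ _).trans (le_max_right _ _)
        · exact (le_max_right _ _).trans (le_max_right _ _)
    rw [gen_iff, hmax]
    constructor
    · rintro ⟨_, p', q', r', e1, e2, e3, h'⟩
      rw [ch_injective h e1, ch_injective h e2, ch_injective h e3]
      exact h'
    · intro h'
      exact ⟨h, p, q, r, rfl, rfl, rfl, h'⟩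
  · push Not at hn
    match p, q, r, hn with
    | some p, some q, some r, _ =>
      exact (h.2.2 σ p q r).symm

theorem chart_ch {α : Ordinal.{0}} (h : VS α) : Chart gen (Set.range (ch α (req α))) :=
  chart_range (ch_injective h) (by rw [comap_ch h]; exact h.2.1)

theorem gen_chart {σ : Sym} {a b c : Ordinal.{0}} (h : gen σ a b c) {α : Ordinal.{0}}
    (hα : max a (max b c) = α) : VS α ∧ a ∈ Set.range (ch α (req α)) ∧
      b ∈ Set.range (ch α (req α)) ∧ c ∈ Set.range (ch α (req α)) := by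
  subst hα
  rw [gen_iff] at h
  obtain ⟨h1, p, q, r, e1, e2, e3, _⟩ := h
  exact ⟨h1, ⟨p, e1.symm⟩, ⟨q, e2.symm⟩, ⟨r, e3.symm⟩⟩

theorem isK_gen : IsK gen := by
  refine isK_of_charts ?_ ?_ ?_
  · intro σ a b c h
    obtain ⟨h1, h2⟩ := gen_chart h rfl
    exact ⟨_, chart_ch h1, h2⟩
  · intro a b c h1 h2 h3
    rcases le_total (max b c) a with ha | ha
    · have hb := (le_max_left b c).trans ha
      have hc := (le_max_right b c).trans ha
      obtain ⟨v, k1, k2, _⟩ := gen_chart (α := a) h1 (by simp [hb])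
      obtain ⟨_, _, k3, _⟩ := gen_chart (α := a) h2 (by simp [hc])
      exact ⟨_, chart_ch v, k1, k2, k3⟩
    · rcases le_total b c with hbc | hbc
      · have hac : a ≤ c := by rwa [max_eq_right hbc] at ha
        obtain ⟨v, k1, k2, _⟩ := gen_chart (α := c) h2 (by simp [hac])
        obtain ⟨_, k3, _⟩ := gen_chart (α := c) h3 (by simp [hbc])
        exact ⟨_, chart_ch v, k1, k3, k2⟩
      · have hab : a ≤ b := by rwa [max_eq_left hbc] at ha
        obtain ⟨v, k1, k2, _⟩ := gen_chart (α := b) h1 (by simp [hab])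
        obtain ⟨_, _, k3, _⟩ := gen_chart (α := b) h3 (by simp [hbc])
        exact ⟨_, chart_ch v, k1, k2, k3⟩
  · intro m a b c e h1 h2 h3 h4
    obtain ⟨t, ht⟩ : ∃ t, t = max (max a b) (max c e) := ⟨_, rfl⟩
    have hta : a ≤ t := by rw [ht]; exact (le_max_left _ _).trans (le_max_left _ _)
    have htb : b ≤ t := by rw [ht]; exact (le_max_right _ _).trans (le_max_left _ _)
    have htc : c ≤ t := by rw [ht]; exact (le_max_left _ _).trans (le_max_right _ _)
    have hte : e ≤ t := by rw [ht]; exact (le_max_right _ _).trans (le_max_right _ _)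
    have hcases : a = t ∨ b = t ∨ c = t ∨ e = t := by
      rw [ht]
      rcases le_total (max a b) (max c e) with h | h
      · rw [max_eq_right h]
        rcases le_total c e with h' | h'
        · rw [max_eq_right h']; simp
        · rw [max_eq_left h']; simp
      · rw [max_eq_left h]
        rcases le_total a b with h' | h'
        · rw [max_eq_right h']; simp
        · rw [max_eq_left h']; simp
    rcases hcases with h | h | h | h
    · subst h
      obtain ⟨v, k1, k2, _⟩ := gen_chart (α := a) h1 (by simp [htb])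
      obtain ⟨_, _, k3, k4⟩ := gen_chart (α := a) h3 (by simp [htc, hte])
      exact ⟨_, chart_ch v, k1, k2, k3, k4⟩
    · subst h
      obtain ⟨v, k1, k2, _⟩ := gen_chart (α := b) h1 (by simp [hta])
      obtain ⟨_, _, k3, k4⟩ := gen_chart (α := b) h4 (by simp [htc, hte])
      exact ⟨_, chart_ch v, k1, k2, k3, k4⟩
    · subst h
      obtain ⟨v, k1, k3, k4⟩ := gen_chart (α := c) h3 (by
        rw [max_eq_left hte, max_eq_right hta])
      obtain ⟨_, k2, _, _⟩ := gen_chart (α := c) h4 (by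
        rw [max_eq_left hte, max_eq_right htb])
      exact ⟨_, chart_ch v, k1, k2, k3, k4⟩
    · subst h
      obtain ⟨v, k1, k3, k4⟩ := gen_chart (α := e) h3 (by
        rw [max_eq_right htc, max_eq_right hta])
      obtain ⟨_, k2, _, _⟩ := gen_chart (α := e) h4 (by
        rw [max_eq_right htc, max_eq_right htb])
      exact ⟨_, chart_ch v, k1, k2, k3, k4⟩

theorem sep_gen : SEP.{0} gen := by
  intro I hI f hf τ hτ hag
  obtain ⟨δ, hδ⟩ : ∃ δ : Ordinal.{0}, ∀ i, f i < δ := by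
    have hsm : Small.{0} (Set.range f) := small_range f
    obtain ⟨δ, hδ⟩ := Ordinal.bddAbove_of_small (s := Set.range f)
    exact ⟨Order.succ δ, fun i => Order.lt_succ_of_le (hδ ⟨i, rfl⟩)⟩
  let f' : I → Set.Iio δ := fun i => ⟨f i, hδ i⟩
  have hf' : Function.Injective f' := fun i j h => hf (congrArg Subtype.val h)
  let ρ' : Raw (Set.Iio δ) := gen.comap Subtype.val
  have hρ' : IsK ρ' := isK_gen.comap Subtype.val_injective
  have hag' : τ.comap some = ρ'.comap f' := hag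
  obtain ⟨α, hδα, hα⟩ := req_spec ⟨δ, amal ρ' f' τ⟩ δ
  have hv : VS α := by
    unfold VS
    rw [hα]
    refine ⟨hδα, isK_amal hf' hρ' hτ hag', fun σ a b c => ?_⟩
    have := congrFun (congrFun (congrFun (congrFun (amal_some hag') σ) a) b) c
    exact iff_of_eq this
  refine ⟨α, fun i => ((hδ i).trans_le hδα).ne, ?_⟩
  have h1 := comap_ch hv
  rw [hα] at h1
  have h2 := congrArg (Raw.comap (Option.map f')) h1
  simp only at h2
  rw [amal_map hf' hag'] at h2
  rw [← h2]
  funext σ x y z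
  simp only [Raw.comap]
  have he : ∀ o : Option I, o.elim α f = ch α ⟨δ, amal ρ' f' τ⟩ (Option.map f' o) := by
    intro o
    match o with
    | none => rfl
    | some o => rfl
  rw [he, he, he]

/-- MODULE B1 -/
theorem exists_generic : ∃ ρ : Raw Ordinal.{0}, IsK ρ ∧ SEP.{0} ρ :=
  ⟨gen, isK_gen, sep_gen⟩

end gen

/-! ### Back and forth -/

section bf

variable {U : Type u} {V : Type v}

/-- graphs of local isomorphisms -/
def Good (ρ : Raw U) (τ : Raw V) (P : Set (U × V)) : Prop :=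
  ∀ p ∈ P, ∀ q ∈ P, ∀ r ∈ P, (p.1 = q.1 ↔ p.2 = q.2) ∧
    ∀ σ, (ρ σ p.1 q.1 r.1 ↔ τ σ p.2 q.2 r.2)

theorem Good.swap {ρ : Raw U} {τ : Raw V} {P : Set (U × V)} (h : Good ρ τ P) :
    Good τ ρ (Prod.swap ⁻¹' P) := by
  intro p hp q hq r hr
  obtain ⟨h1, h2⟩ := h _ hp _ hq _ hr
  exact ⟨h1.symm, fun σ => (h2 σ).symm⟩

theorem Good.mono {ρ : Raw U} {τ : Raw V} {P Q : Set (U × V)} (h : Good ρ τ P) (hs : Q ⊆ P) :
    Good ρ τ Q :=
  fun p hp q hq r hr => h p (hs hp) q (hs hq) r (hs hr)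

theorem good_sUnion {ρ : Raw U} {τ : Raw V} {C : Set (Set (U × V))} (hC : IsChain (· ⊆ ·) C)
    (hG : ∀ c ∈ C, Good ρ τ c) : Good ρ τ (⋃₀ C) := by
  rintro p ⟨c1, hc1, hp⟩ q ⟨c2, hc2, hq⟩ r ⟨c3, hc3, hr⟩
  obtain ⟨c, hc, h1, h2⟩ : ∃ c ∈ C, c1 ⊆ c ∧ c2 ⊆ c := by
    rcases hC.total hc1 hc2 with h | h
    · exact ⟨c2, hc2, h, subset_rfl⟩
    · exact ⟨c1, hc1, subset_rfl, h⟩
  obtain ⟨c', hc', h1', h2'⟩ : ∃ c' ∈ C, c ⊆ c' ∧ c3 ⊆ c' := by
    rcases hC.total hc hc3 with h | h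
    · exact ⟨c3, hc3, h, subset_rfl⟩
    · exact ⟨c, hc, subset_rfl, h⟩
  exact hG c' hc' p (h1' (h1 hp)) q (h1' (h2 hq)) r (h2' hr)

end bf

section bf2

variable {U V : Type (u + 1)}

/-- one step forth -/
theorem forth {ρ : Raw U} {τ : Raw V} (hK : IsK ρ) (hS : SEP.{u} τ) {P : Set (U × V)}
    (hP : Good ρ τ P) [Small.{u} P] (a : U) : ∃ b, Good ρ τ (insert (a, b) P) := by
  by_cases hd : ∃ p ∈ P, p.1 = a
  · obtain ⟨p, hp, rfl⟩ := hd
    refine ⟨p.2, ?_⟩
    rw [Prod.mk.eta, Set.insert_eq_of_mem hp]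
    exact hP
  · push Not at hd
    let f : P → V := fun p => p.1.2
    let e : Option P → U := fun o => o.elim a (fun p => p.1.1)
    have hf : Function.Injective f := by
      intro p q h
      have := (hP p.1 p.2 q.1 q.2 p.1 p.2).1.2 h
      exact Subtype.ext (Prod.ext this h)
    have he : Function.Injective e := by
      intro o o' h
      match o, o', h with
      | none, none, _ => rfl
      | none, some q, h => exact absurd h.symm (hd q.1 q.2)
      | some p, none, h => exact absurd h (hd p.1 p.2)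
      | some p, some q, h =>
        have h' : p.1.1 = q.1.1 := h
        have := (hP p.1 p.2 q.1 q.2 p.1 p.2).1.1 h'
        rw [Subtype.ext (Prod.ext h' this)]
    obtain ⟨b, hb1, hb2⟩ := hS P f hf (ρ.comap e) (hK.comap he) (by
      funext σ p q r
      exact propext ((hP p.1 p.2 q.1 q.2 r.1 r.2).2 σ))
    refine ⟨b, ?_⟩
    let e' : Option P → V := fun o => o.elim b f
    have he' : Function.Injective e' := by
      intro o o' h
      match o, o', h with
      | none, none, _ => rfl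
      | none, some q, h => exact absurd h.symm (hb1 q)
      | some p, none, h => exact absurd h (hb1 p)
      | some p, some q, h => rw [hf h]
    have hex : ∀ p ∈ insert (a, b) P, ∃ o, p = (e o, e' o) := by
      intro p hp
      rcases hp with rfl | hp
      · exact ⟨none, rfl⟩
      · exact ⟨some ⟨p, hp⟩, rfl⟩
    intro p hp q hq r hr
    obtain ⟨o1, rfl⟩ := hex p hp
    obtain ⟨o2, rfl⟩ := hex q hq
    obtain ⟨o3, rfl⟩ := hex r hr
    refine ⟨?_, fun σ => ?_⟩
    · simp only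
      rw [he.eq_iff, he'.eq_iff]
    · have := congrFun (congrFun (congrFun (congrFun hb2 σ) o1) o2) o3
      exact (iff_of_eq this).symm

/-- one step back -/
theorem back {ρ : Raw U} {τ : Raw V} (hK : IsK τ) (hS : SEP.{u} ρ) {P : Set (U × V)}
    (hP : Good ρ τ P) [Small.{u} P] (b : V) : ∃ a, Good ρ τ (insert (a, b) P) := by
  have hsm : Small.{u} (Prod.swap ⁻¹' P : Set (V × U)) := by
    have : Function.Injective (fun x : (Prod.swap ⁻¹' P : Set (V × U)) =>
        (⟨Prod.swap x.1, x.2⟩ : P)) := by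
      intro x y h
      apply Subtype.ext
      exact Prod.swap_injective (congrArg Subtype.val h)
    exact small_of_injective this
  obtain ⟨a, ha⟩ := forth hK hS hP.swap b
  refine ⟨a, ?_⟩
  have := ha.swap
  refine this.mono ?_
  rintro p (rfl | hp)
  · exact Or.inl rfl
  · exact Or.inr (by simpa using hp)

/-- MODULE B3: small structures in K embed over a given embedding of a part -/
theorem embed_over' {U : Type (u + 1)} (ρ : Raw U) (hS : SEP.{u} ρ) (Q : Type (u + 1))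
    [Small.{u} Q] (τ : Raw Q) (hτ : IsK τ) (B : Set Q) (g0 : Q → U) (hinj : Set.InjOn g0 B)
    (hpres : ∀ σ, ∀ a ∈ B, ∀ b ∈ B, ∀ c ∈ B, (ρ σ (g0 a) (g0 b) (g0 c) ↔ τ σ a b c)) :
    ∃ g : Q → U, Function.Injective g ∧ Set.EqOn g g0 B ∧ ρ.comap g = τ := by
  let P0 : Set (Q × U) := {p | p.1 ∈ B ∧ p.2 = g0 p.1}
  have hP0 : Good τ ρ P0 := by
    rintro ⟨a, a'⟩ ⟨ha, ha'⟩ ⟨b, b'⟩ ⟨hb, hb'⟩ ⟨c, c'⟩ ⟨hc, hc'⟩
    simp only at ha ha' hb hb' hc hc'
    subst ha'; subst hb'; subst hc'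
    exact ⟨⟨fun h => congrArg g0 h, fun h => hinj ha hb h⟩, fun σ => (hpres σ a ha b hb c hc).symm⟩
  obtain ⟨P, hP0P, hP⟩ := zorn_subset_nonempty {P : Set (Q × U) | Good τ ρ P}
    (by
      intro C hC hch _
      exact ⟨⋃₀ C, good_sUnion hch hC, fun s hs => Set.subset_sUnion_of_mem hs⟩) P0 hP0
  have hG : Good τ ρ P := hP.prop
  have hsm : Small.{u} P := by
    have : Function.Injective (fun x : P => x.1.1) := by
      intro x y h
      have := (hG x.1 x.2 y.1 y.2 x.1 x.2).1.1 h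
      exact Subtype.ext (Prod.ext h this)
    exact small_of_injective this
  have hdom : ∀ a : Q, ∃ b, (a, b) ∈ P := by
    intro a
    obtain ⟨b, hb⟩ := forth hτ hS hG a
    exact ⟨b, hP.le_of_ge hb (Set.subset_insert _ _) (Set.mem_insert _ _)⟩
  choose g hg using hdom
  refine ⟨g, ?_, ?_, ?_⟩
  · intro a b h
    exact (hG _ (hg a) _ (hg b) _ (hg a)).1.2 h
  · intro a ha
    have h0 : (a, g0 a) ∈ P := hP0P ⟨ha, rfl⟩
    exact (hG _ (hg a) _ h0 _ h0).1.1 rfl
  · funext σ a b c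
    exact propext ((hG _ (hg a) _ (hg b) _ (hg c)).2 σ).symm

end bf2

/-- MODULE B3: small structures in K embed over a given embedding of a part -/
theorem embed_over {U : Type 1} (ρ : Raw U) (hK : IsK ρ) (hS : SEP.{0} ρ) (Q : Type 1)
    [Small.{0} Q] (τ : Raw Q) (hτ : IsK τ) (B : Set Q) (g0 : Q → U) (hinj : Set.InjOn g0 B)
    (hpres : ∀ σ, ∀ a ∈ B, ∀ b ∈ B, ∀ c ∈ B, (ρ σ (g0 a) (g0 b) (g0 c) ↔ τ σ a b c)) :
    ∃ g : Q → U, Function.Injective g ∧ Set.EqOn g g0 B ∧ ρ.comap g = τ :=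
  embed_over' ρ hS Q τ hτ B g0 hinj hpres

section homog

/-- the extension property needed at a stage -/
def Next (ρ : Raw Ordinal.{0}) (α : Ordinal.{0}) (P P' : Set (Ordinal.{0} × Ordinal.{0})) : Prop :=
  P ⊆ P' ∧ Good ρ ρ P' ∧ Small.{0} P' ∧ (∃ b, (α, b) ∈ P') ∧ ∃ a, (a, α) ∈ P'

theorem exists_next {ρ : Raw Ordinal.{0}} (hK : IsK ρ) (hS : SEP.{0} ρ) (α : Ordinal.{0})
    {P : Set (Ordinal.{0} × Ordinal.{0})} (hP : Good ρ ρ P) (hs : Small.{0} P) :
    ∃ P', Next ρ α P P' := by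
  obtain ⟨b, hb⟩ := forth hK hS hP α
  have hs1 : Small.{0} (insert (α, b) P : Set (Ordinal.{0} × Ordinal.{0})) := small_insert _ _
  obtain ⟨a, ha⟩ := back hK hS hb α
  refine ⟨insert (a, α) (insert (α, b) P), ?_, ha, small_insert _ _, ⟨b, ?_⟩, ⟨a, ?_⟩⟩
  · exact (Set.subset_insert _ _).trans (Set.subset_insert _ _)
  · exact Set.mem_insert_of_mem _ (Set.mem_insert _ _)
  · exact Set.mem_insert _ _

open Classical in
/-- one step -/
noncomputable def nxt (ρ : Raw Ordinal.{0}) (α : Ordinal.{0})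
    (P : Set (Ordinal.{0} × Ordinal.{0})) : Set (Ordinal.{0} × Ordinal.{0}) :=
  if h : ∃ P', Next ρ α P P' then h.choose else P

theorem subset_nxt (ρ : Raw Ordinal.{0}) (α : Ordinal.{0})
    (P : Set (Ordinal.{0} × Ordinal.{0})) : P ⊆ nxt ρ α P := by
  unfold nxt
  split_ifs with h
  · exact h.choose_spec.1
  · exact subset_rfl

/-- the chain of local isomorphisms -/
noncomputable def chn (ρ : Raw Ordinal.{0}) (P0 : Set (Ordinal.{0} × Ordinal.{0}))
    (α : Ordinal.{0}) : Set (Ordinal.{0} × Ordinal.{0}) :=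
  nxt ρ α (P0 ∪ ⋃ β : Set.Iio α, chn ρ P0 β.1)
termination_by α
decreasing_by exact β.2

theorem chn_mono {ρ : Raw Ordinal.{0}} {P0 : Set (Ordinal.{0} × Ordinal.{0})}
    {α β : Ordinal.{0}} (h : β ≤ α) : chn ρ P0 β ⊆ chn ρ P0 α := by
  rcases h.eq_or_lt with rfl | h
  · exact subset_rfl
  · conv_rhs => rw [chn]
    refine subset_trans ?_ (subset_nxt _ _ _)
    intro x hx
    exact Or.inr (Set.mem_iUnion.2 ⟨⟨β, h⟩, hx⟩)

theorem subset_chn {ρ : Raw Ordinal.{0}} {P0 : Set (Ordinal.{0} × Ordinal.{0})}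
    {α : Ordinal.{0}} : P0 ⊆ chn ρ P0 α := by
  rw [chn]
  exact subset_trans Set.subset_union_left (subset_nxt _ _ _)

theorem chn_spec {ρ : Raw Ordinal.{0}} (hK : IsK ρ) (hS : SEP.{0} ρ)
    {P0 : Set (Ordinal.{0} × Ordinal.{0})} (h0 : Good ρ ρ P0) (hs0 : Small.{0} P0)
    (α : Ordinal.{0}) : Good ρ ρ (chn ρ P0 α) ∧ Small.{0} (chn ρ P0 α) ∧
      (∃ b, (α, b) ∈ chn ρ P0 α) ∧ ∃ a, (a, α) ∈ chn ρ P0 α := by
  induction α using WellFoundedLT.induction with
  | _ α ih =>
    have hG : Good ρ ρ (P0 ∪ ⋃ β : Set.Iio α, chn ρ P0 β.1) := by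
      have hch : IsChain (· ⊆ ·) ({P0} ∪ Set.range (fun β : Set.Iio α => chn ρ P0 β.1)) := by
        rintro c hc c' hc' _
        rcases hc with hc | ⟨β, rfl⟩ <;> rcases hc' with hc' | ⟨β', rfl⟩
        · rw [Set.mem_singleton_iff] at hc hc'
          subst hc; subst hc'; exact Or.inl subset_rfl
        · rw [Set.mem_singleton_iff] at hc
          subst hc; exact Or.inl subset_chn
        · rw [Set.mem_singleton_iff] at hc'
          subst hc'; exact Or.inr subset_chn
        · rcases le_total β.1 β'.1 with h | h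
          · exact Or.inl (chn_mono h)
          · exact Or.inr (chn_mono h)
      have := good_sUnion (ρ := ρ) (τ := ρ) hch (by
        rintro c (hc | ⟨β, rfl⟩)
        · rw [Set.mem_singleton_iff] at hc
          subst hc; exact h0
        · exact (ih β.1 β.2).1)
      refine this.mono ?_
      rintro x (hx | hx)
      · exact ⟨P0, Or.inl rfl, hx⟩
      · obtain ⟨β, hx⟩ := Set.mem_iUnion.1 hx
        exact ⟨_, Or.inr ⟨β, rfl⟩, hx⟩
    have hsm : Small.{0} (P0 ∪ ⋃ β : Set.Iio α, chn ρ P0 β.1 :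
        Set (Ordinal.{0} × Ordinal.{0})) := by
      have : ∀ β : Set.Iio α, Small.{0} (chn ρ P0 β.1) := fun β => (ih β.1 β.2).2.1
      infer_instance
    have hex := exists_next hK hS α hG hsm
    have := hex.choose_spec
    rw [chn, nxt, dif_pos hex]
    exact this.2

/-- MODULE B2: strong homogeneity -/
theorem homogeneous (ρ : Raw Ordinal.{0}) (hK : IsK ρ) (hS : SEP.{0} ρ) (I : Type 1) [Small.{0} I]
    (f g : I → Ordinal.{0}) (h1 : ∀ i j, f i = f j ↔ g i = g j) (h2 : ρ.comap f = ρ.comap g) :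
    ∃ e : Ordinal.{0} ≃ Ordinal.{0}, (∀ i, e (f i) = g i) ∧ ρ.comap e = ρ := by
  let P0 : Set (Ordinal.{0} × Ordinal.{0}) := Set.range fun i => (f i, g i)
  have hP0 : Good ρ ρ P0 := by
    rintro _ ⟨i, rfl⟩ _ ⟨j, rfl⟩ _ ⟨k, rfl⟩
    refine ⟨h1 i j, fun σ => ?_⟩
    exact iff_of_eq (congrFun (congrFun (congrFun (congrFun h2 σ) i) j) k)
  have hs0 : Small.{0} P0 := small_range _
  have hspec := chn_spec hK hS hP0 hs0
  let Q : Set (Ordinal.{0} × Ordinal.{0}) := ⋃₀ Set.range (chn ρ P0)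
  have hQ : Good ρ ρ Q := by
    refine good_sUnion ?_ ?_
    · rintro _ ⟨β, rfl⟩ _ ⟨β', rfl⟩ _
      rcases le_total β β' with h | h
      · exact Or.inl (chn_mono h)
      · exact Or.inr (chn_mono h)
    · rintro _ ⟨β, rfl⟩
      exact (hspec β).1
  have hd : ∀ a, ∃ b, (a, b) ∈ Q := fun a => by
    obtain ⟨b, hb⟩ := (hspec a).2.2.1
    exact ⟨b, _, ⟨a, rfl⟩, hb⟩
  have hr : ∀ b, ∃ a, (a, b) ∈ Q := fun b => by
    obtain ⟨a, ha⟩ := (hspec b).2.2.2
    exact ⟨a, _, ⟨b, rfl⟩, ha⟩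
  choose F hF using hd
  choose G hG using hr
  refine ⟨⟨F, G, ?_, ?_⟩, ?_, ?_⟩
  · intro a
    exact (hQ _ (hG (F a)) _ (hF a) _ (hF a)).1.2 rfl
  · intro b
    exact (hQ _ (hF (G b)) _ (hG b) _ (hG b)).1.1 rfl
  · intro i
    have h0 : (f i, g i) ∈ Q := ⟨_, ⟨0, rfl⟩, subset_chn ⟨i, rfl⟩⟩
    exact (hQ _ (hF (f i)) _ h0 _ h0).1.1 rfl
  · funext σ a b c
    exact propext ((hQ _ (hF a) _ (hF b) _ (hF c)).2 σ).symm

end homog

end Pool.Agent.H78.Dom
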